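import Pool.Agent.Lib.MP_1a91b9_ntMN.RU13

/-!
# MP_1a91b9_nt (the discriminant form, sets of curves): transport of the law for the families of multipliers
-/

set_option autoImplicit false

namespace Pool.Agent.Lib.MP_1a91b9_ntDT

open NumberField WeierstrassCurve
open Pool.Agent.Lib.MP_1a91b9_ntMN

/-- **Transport of the law for families.** (As `DMBI.tr` in `MN/RU13`, but for families `δ` and with no finite
sets: the family over `K'` is `e.symm (δ i J)`.) -/
theorem dbi_tr {K K' : Type} [Field K] [NumberField K] [Field K'] [NumberField K']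
    (e : K' ≃+* K) {l : ℕ} {H' : (F : Type) → [Field F] → 𝓞 K' → 𝓞 K' → Prop}
    {H : (F : Type) → [Field F] → 𝓞 K → 𝓞 K → Prop}
    (hH : ∀ (F : Type) [Field F] (m u : 𝓞 K), H F m u → H' F ((RingOfIntegers.mapRingEquiv e).symm m)
      ((RingOfIntegers.mapRingEquiv e).symm u))
    {E : Set K} {a b : K'} {c : ℝ} (h : DBI K' l H' (e ⁻¹' E) a b c) : DBI K l H E (e a) (e b) c := by
  intro F _ _ _ hF r m u hmu k δ hδ t
  let _ : Algebra K' F := ((algebraMap K F).comp (e : K' →+* K)).toAlgebra
  have hal : ∀ y : K', algebraMap K' F y = algebraMap K F (e y) := fun _ => rfl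
  have hF' : IntermediateField.adjoin K' {x : F | ∃ c : K', x ^ l = algebraMap K' F c} = ⊤ := by
    have hset : {x : F | ∃ c : K', x ^ l = algebraMap K' F c} =
        {x : F | ∃ c : K, x ^ l = algebraMap K F c} := by
      ext x
      constructor
      · rintro ⟨c, hc⟩
        exact ⟨e c, hc⟩
      · rintro ⟨c, hc⟩
        refine ⟨e.symm c, ?_⟩
        rw [hal, e.apply_symm_apply, hc]
    rw [eq_top_iff]
    intro x _
    have hx : x ∈ IntermediateField.adjoin K {x : F | ∃ c : K, x ^ l = algebraMap K F c} := by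
      rw [hF]
      exact IntermediateField.mem_top
    rw [hset]
    rw [← IntermediateField.mem_toSubfield, IntermediateField.adjoin_toSubfield] at hx ⊢
    have hr : Set.range (algebraMap K' F) = Set.range (algebraMap K F) := by
      ext y
      constructor
      · rintro ⟨z, rfl⟩
        exact ⟨e z, rfl⟩
      · rintro ⟨z, rfl⟩
        exact ⟨e.symm z, by rw [hal, e.apply_symm_apply]⟩
    rw [hr]
    exact hx
  have hfin : Module.finrank K' F = Module.finrank K F := by
    have h1 : Module.finrank ℚ K' * Module.finrank K' F = Module.finrank ℚ F :=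
      Module.finrank_mul_finrank ℚ K' F
    have h2 : Module.finrank ℚ K * Module.finrank K F = Module.finrank ℚ F :=
      Module.finrank_mul_finrank ℚ K F
    have h3 : Module.finrank ℚ K' = Module.finrank ℚ K :=
      (RingEquiv.toRatAlgEquiv e).toLinearEquiv.finrank_eq
    rw [← h2, ← h3] at h1
    exact Nat.eq_of_mul_eq_mul_left Module.finrank_pos h1
  obtain ⟨e', he'⟩ : ∃ e' : K ≃+* K', e' = e.symm := ⟨_, rfl⟩
  have hre : ∀ x : 𝓞 K, RingOfIntegers.mapRingEquiv e (RingOfIntegers.mapRingEquiv e' x) = x := by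
    intro x
    apply RingOfIntegers.ext
    rw [RingOfIntegers.mapRingEquiv_apply, RingOfIntegers.mapRingEquiv_apply, he',
      e.apply_symm_apply]
  have hδ' : ∀ J : Finset (Fin r), J.Nonempty → Pool.Agent.Lib.MP_1a91b9_ntZ.SepF K' F (e ⁻¹' E)
      fun i => e' (δ i J) := by
    intro J hJ
    obtain ⟨h1, h2⟩ := hδ J hJ
    refine ⟨fun i h0 => h1 i ((map_eq_zero_iff _ e'.injective).1 h0), fun i j hij x hx => ?_⟩
    rintro ⟨y, hy⟩
    refine h2 i j hij (e x) hx ⟨y, ?_⟩
    beta_reduce at hy ⊢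
    rw [hy, hal, map_mul e, map_mul e, he', e.apply_symm_apply, e.apply_symm_apply]
  have h1 := h F hF' r ((RingOfIntegers.mapRingEquiv e).symm m)
    (fun i => (RingOfIntegers.mapRingEquiv e).symm (u i))
    (hmu.tr e fun v hv => hH F m v hv) k (fun i J => e' (δ i J)) hδ' t
  rw [hfin] at h1
  refine CovGI.tr e ?_
  have key : ∀ (d : Fin r → 𝓞 K') (i : Fin k) (J : Finset (Fin r)),
      (⟨0, algebraMap K F (δ i J * ((∏ j ∈ J, RingOfIntegers.mapRingEquiv e (d j) : 𝓞 K) : K) * e a), 0,
        algebraMap K F ((δ i J * ((∏ j ∈ J, RingOfIntegers.mapRingEquiv e (d j) : 𝓞 K) : K)) ^ 2 * e b),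
          0⟩ : WeierstrassCurve F) =
      ⟨0, algebraMap K' F (e' (δ i J) * ((∏ j ∈ J, d j : 𝓞 K') : K') * a), 0,
        algebraMap K' F ((e' (δ i J) * ((∏ j ∈ J, d j : 𝓞 K') : K')) ^ 2 * b), 0⟩ := by
    intro d i J
    have e4 : ((∏ j ∈ J, RingOfIntegers.mapRingEquiv e (d j) : 𝓞 K) : K) =
        e ((∏ j ∈ J, d j : 𝓞 K') : K') := by
      rw [← RingOfIntegers.mapRingEquiv_apply, map_prod (RingOfIntegers.mapRingEquiv e)]
    rw [hal, hal, e4, map_mul e, map_mul e, map_mul e, map_pow e, map_mul e, he', e.apply_symm_apply]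
  simp only [key]
  exact h1

end Pool.Agent.Lib.MP_1a91b9_ntDT
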