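import Pool.Agent.Lib.MP_1a91b9_ntDT.P1
import Pool.Agent.Lib.MP_1a91b9_ntMN.UW11

/-!
# MP_1a91b9_nt (the discriminant form, sets of curves): the laws for the standard families over `K`
-/

set_option autoImplicit false

namespace Pool.Agent.Lib.MP_1a91b9_ntDT

open NumberField WeierstrassCurve
open Pool.Agent.Lib.MP_1a91b9_ntW.J (Cls2 ClsN cR cS cI cJ iso_K4)
open Pool.Agent.Lib.MP_1a91b9_ntI (K3)
open Pool.Agent.Lib.MP_1a91b9_ntQ (K4)
open Pool.Agent.Lib.MP_1a91b9_ntW (K8 lam8 lam8_sq)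
open Pool.Agent.Lib.MP_1a91b9_ntV (K7 t7)
open Pool.Agent.Lib.MP_1a91b9_ntB (exists_iso3)
open Pool.Agent.Lib.MP_1a91b9_ntMN

private theorem P2_pre {K K' : Type} [Field K] [Field K'] (e : K' ≃+* K) (b : K) :
    e ⁻¹' {1, b} = {1, e.symm b} := by
  ext x
  simp only [Set.mem_preimage, Set.mem_insert_iff, Set.mem_singleton_iff]
  constructor
  · rintro (h | h)
    · left
      rw [← e.symm_apply_apply x, h, map_one]
    · right
      rw [← h, e.symm_apply_apply]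
  · rintro (h | h)
    · left
      rw [h, map_one]
    · right
      rw [h, e.apply_symm_apply]

private theorem P2_pre1 {K K' : Type} [Field K] [Field K'] (e : K' ≃+* K) :
    e ⁻¹' {1, -1} = {1, -1} := by
  rw [P2_pre e (-1), map_neg, map_one]

private theorem P2_4 {b : K4} (hb : b ≠ 0) : DBI K4 4 (fun _ => Cls2 K4) {1, b} 0 b cR :=
  lawI4 Pool.Agent.Lib.MP_1a91b9_ntMN.G4.jbi4 covPos4 hb

/-- over a field generated by a square root of `-1` (as `db4I_of` in `MN/RU14`, from `lawI4 jbi4 covPos4` and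
`dbi_tr`; `jbi4` = `MN.G4.jbi4`, `covPos4` as in `MN/UW10`, `MN/UW11`) -/
theorem db4T {K : Type} [Field K] [NumberField K] (hK : Module.finrank ℚ K = 2) {i : K}
    (hi : i ^ 2 = -1) {b : K} (hb : b ≠ 0) : DBI K 4 (fun _ => Cls2 K) {1, b} 0 b cR := by
  obtain ⟨e⟩ := iso_K4 hK hi
  have h1 : DBI K4 4 (fun _ => Cls2 K4) {1, e.symm b} 0 (e.symm b) cR := by
    refine P2_4 ?_
    rw [Ne, map_eq_zero_iff _ e.symm.injective]
    exact hb
  rw [← P2_pre e b] at h1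
  have h2 := dbi_tr e (H := fun _ => Cls2 K) (fun _ _ => Cls2.tr e) h1
  rw [map_zero, e.apply_symm_apply] at h2
  exact h2

private theorem P2_3N {e : K3} (he : e ≠ 0) :
    DBI K3 2 (fun F _ => ClsN K3 F) {1, -1} (-3 * e) (3 * e ^ 2) cI :=
  lawI3 jbi3 jpi3 covPos3 he

/-- over a field generated by a square root of `-3`, for the extensions without square root of `-1` -/
theorem db3NT {K : Type} [Field K] [NumberField K] (hK : Module.finrank ℚ K = 2) {s : K}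
    (hs : s ^ 2 = -3) {e : K} (he : e ≠ 0) :
    DBI K 2 (fun F _ => ClsN K F) {1, -1} (-3 * e) (3 * e ^ 2) cI := by
  obtain ⟨f⟩ := exists_iso3 hK hs
  have h1 : DBI K3 2 (fun F _ => ClsN K3 F) {1, -1} (-3 * f.symm e) (3 * (f.symm e) ^ 2) cI := by
    refine P2_3N ?_
    rw [Ne, map_eq_zero_iff _ f.symm.injective]
    exact he
  rw [← P2_pre1 f] at h1
  have h2 := dbi_tr f (H := fun F _ => ClsN K F) (ClsN.tr f) h1
  rwa [map_mul, map_mul, map_neg, map_pow, map_ofNat, f.apply_symm_apply] at h2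

private theorem P2_3J {e : K3} (he : e ≠ 0) :
    DBI K3 2 (fun _ => Cls2 K3) {1, -1} (-3 * e) (3 * e ^ 2) cJ :=
  lawI3' jbi3 jpi3 covPos3 he

/-- over a field generated by a square root of `-3` -/
theorem db3JT {K : Type} [Field K] [NumberField K] (hK : Module.finrank ℚ K = 2) {s : K}
    (hs : s ^ 2 = -3) {e : K} (he : e ≠ 0) :
    DBI K 2 (fun _ => Cls2 K) {1, -1} (-3 * e) (3 * e ^ 2) cJ := by
  obtain ⟨f⟩ := exists_iso3 hK hs
  have h1 : DBI K3 2 (fun _ => Cls2 K3) {1, -1} (-3 * f.symm e) (3 * (f.symm e) ^ 2) cJ := by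
    refine P2_3J ?_
    rw [Ne, map_eq_zero_iff _ f.symm.injective]
    exact he
  rw [← P2_pre1 f] at h1
  have h2 := dbi_tr f (H := fun _ => Cls2 K) (fun _ _ => Cls2.tr f) h1
  rwa [map_mul, map_mul, map_neg, map_pow, map_ofNat, f.apply_symm_apply] at h2

private theorem P2_8 {e : K8} (he : e ≠ 0) :
    DBI K8 2 (fun _ => Cls2 K8) {1, -1} (4 * e) (2 * e ^ 2) cR :=
  lawI8 jbi8 covPos8 he

/-- over a field generated by a square root of `-2` -/
theorem db8T {K : Type} [Field K] [NumberField K] (hK : Module.finrank ℚ K = 2) {s : K}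
    (hs : s ^ 2 = -2) {e : K} (he : e ≠ 0) :
    DBI K 2 (fun _ => Cls2 K) {1, -1} (4 * e) (2 * e ^ 2) cR := by
  have hl : (lam8 : K8) ^ 2 = -2 := by
    have h1 := congrArg (fun x : 𝓞 K8 => (x : K8)) lam8_sq
    push_cast at h1
    exact h1
  obtain ⟨f⟩ := Pool.Agent.Lib.MP_1a91b9_ntI.exists_iso_pq
    Pool.Agent.Lib.MP_1a91b9_ntW.T.finrank_K8 hK (t := 0) (n := 2) (by norm_num) (s := (lam8 : K8))
    (by rw [hl]; push_cast; ring) (s' := s) (by rw [hs]; push_cast; ring)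
  have h1 : DBI K8 2 (fun _ => Cls2 K8) {1, -1} (4 * f.symm e) (2 * (f.symm e) ^ 2) cR := by
    refine P2_8 ?_
    rw [Ne, map_eq_zero_iff _ f.symm.injective]
    exact he
  rw [← P2_pre1 f] at h1
  have h2 := dbi_tr f (H := fun _ => Cls2 K) (fun _ _ => Cls2.tr f) h1
  rwa [map_mul, map_mul, map_pow, map_ofNat, map_ofNat, f.apply_symm_apply] at h2

private theorem P2_7 {d₀ : K7} (h : d₀ ≠ 0) :
    DBI K7 2 (fun _ => Cls2 K7) {1, -1}
      (d₀ * (1 + (1 - (t7 : K7)) ^ 4)) (d₀ ^ 2 * (1 - (t7 : K7)) ^ 4) cS :=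
  lawI7 jbi7 covPos7 h

/-- over a field generated by a root of `θ² = θ - 2` -/
theorem db7T {K : Type} [Field K] [NumberField K] (hK : Module.finrank ℚ K = 2) {θ : K}
    (hθ : θ ^ 2 = θ - 2) {d₀ : K} (hd₀ : d₀ ≠ 0) :
    DBI K 2 (fun _ => Cls2 K) {1, -1} (d₀ * (1 + (1 - θ) ^ 4)) (d₀ ^ 2 * (1 - θ) ^ 4) cS := by
  obtain ⟨e, he⟩ := Pool.Agent.Lib.MP_1a91b9_ntI.iso_th
    (K := K7) (@Pool.Agent.Lib.MP_1a91b9_nuT.finrank_K Pool.Agent.Lib.MP_1a91b9_ntV.cd7) hK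
    Pool.Agent.Lib.MP_1a91b9_ntV.J.t7_sq' hθ
  have h0 : e.symm d₀ ≠ 0 := by
    rw [Ne, map_eq_zero_iff _ e.symm.injective]
    exact hd₀
  have h1 := P2_7 h0
  rw [← P2_pre1 e] at h1
  have h2 := dbi_tr e (H := fun _ => Cls2 K) (fun _ _ => Cls2.tr e) h1
  have e1 : e (e.symm d₀ * (1 + (1 - (t7 : K7)) ^ 4)) = d₀ * (1 + (1 - θ) ^ 4) := by
    rw [map_mul, e.apply_symm_apply, map_add, map_one, map_pow, map_sub, map_one, he]
  have e2 : e (e.symm d₀ ^ 2 * (1 - (t7 : K7)) ^ 4) = d₀ ^ 2 * (1 - θ) ^ 4 := by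
    rw [map_mul, map_pow, e.apply_symm_apply, map_pow, map_sub, map_one, he]
  rwa [e1, e2] at h2

end Pool.Agent.Lib.MP_1a91b9_ntDT
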