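import Pool.Agent.Lib.MP_1a91b9_ntDT.P3
import Pool.Agent.Lib.MP_1a91b9_ntDT.P4
import Pool.Agent.Lib.MP_1a91b9_ntDF.D1
import Pool.Agent.Lib.MP_1a91b9_ntMN.UW11

/-!
# MP_1a91b9_nt (the discriminant form, sets of curves): the law for the tuples, `p = 2`
-/

set_option autoImplicit false

namespace Pool.Agent.Lib.MP_1a91b9_ntDT

open NumberField
open Pool.Agent.Lib.MP_1a91b9_ntDF (Pf cK tw cst)
open WeierstrassCurve
open Pool.Agent.Lib.MP_1a91b9_ntL (crv)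
open Pool.Agent.Lib.MP_1a91b9_ntW.J (RkZ Cls2)
open Pool.Agent.Lib.MP_1a91b9_ntZ (bn Atl CB cb_two)
open Pool.Agent.Lib.MP_1a91b9_ntMN
open Pool.Agent.Lib.MP_1a91b9_ntMQ (PMF)
open Pool.Agent.Lib.MP_1a91b9_ntMQ.Fin (PropMF propMF_of)
open Pool.Agent.Lib.MP_1a91b9_ntMN.Fin

section

attribute [local instance 5000] Pool.Agent.Lib.MP_1a91b9_ntV.cd7

/-- The classes have a positive proportion. -/
private theorem P5_cpk {K : Type} [Field K] [NumberField K] (hK : Module.finrank ℚ K = 2)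
    {W : WeierstrassCurve K} (hW : Pool.Agent.Lib.MP_1a91b9_ntY.CMK W)
    (hP : Pool.Agent.Lib.MP_1a91b9_ntY.Pt2 W) : CPK K :=
  cpk_of (fun r m u h => cpk4 covPos4 r m u h) (cpk8 covPos8) (cpk7 covPos7) (cpk3 covPos3) hK hW hP

end

private theorem P5_pf {R : Type} [CommMonoid R] (x : R) : Squarefree x ↔ Pf 2 x := by
  constructor
  · intro h y hy
    exact h y (by rwa [← pow_two])
  · intro h y hy
    exact h y (by rwa [pow_two])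

private theorem P5_tw {K : Type} [Field K] {E : WeierstrassCurve K} {a b : K} (hE : E = crv a b)
    (δ : K) : tw 2 E K δ = crv (δ * a) (δ ^ 2 * b) := by
  rw [hE]
  unfold tw crv
  refine WeierstrassCurve.ext rfl ?_ ?_ ?_ rfl
  · show algebraMap K K (a * δ ^ 1) = δ * a
    rw [pow_one, mul_comm]
    rfl
  · show algebraMap K K (0 * δ ^ 1) = 0
    rw [zero_mul, map_zero]
  · show algebraMap K K (b * δ ^ 2) = δ ^ 2 * b
    rw [mul_comm]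
    rfl

open Classical in
private theorem P5_cnt {α : Type} (S : Finset α) (t : ℕ) (P : α → Prop) :
    Atl t (fun i : Fin S.card => P (S.equivFin.symm i)) → t ≤ (S.filter P).card := by
  intro h
  unfold Atl at h
  refine h.trans ?_
  refine Finset.card_le_card_of_injOn (fun i => ((S.equivFin.symm i : S) : α)) ?_ ?_
  · intro i hi
    rw [Finset.mem_coe, Finset.mem_filter] at hi
    rw [Finset.mem_coe, Finset.mem_filter]
    exact ⟨(S.equivFin.symm i).2, hi.2⟩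
  · intro i _ j _ hij
    exact S.equivFin.symm.injective (Subtype.ext hij)

open Classical in
/-- **The law for the tuples and sets of twists**, `p = 2`. -/
theorem l2T (K : Type) [Field K] [NumberField K] (hK : Module.finrank ℚ K = 2)
    (E : WeierstrassCurve K) (hE : E.a₁ = 0 ∧ E.a₃ = 0 ∧ E.a₆ = 0) (hΔ : E.Δ ≠ 0) (j D : ℤ)
    (hjD : (j, D) ∈ [(0, -3), (54000, -3), (-12288000, -3), (1728, -4), (287496, -4), (-3375, -7),
      (16581375, -7), (8000, -8), (-32768, -11), (-884736, -19), (-884736000, -43),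
      (-147197952000, -67), (-262537412640768000, -163)])
    (hj : E.c₄ ^ 3 = j * E.Δ) (hD : ∃ s : K, s ^ 2 = D)
    (l : ℕ) (hl : l = 2 ∨ l = 4 ∧ ∃ i : K, i ^ 2 = -1)
    (F : Type) [Field F] [NumberField F] [Algebra K F]
    (hF : IntermediateField.adjoin K {x : F | ∃ c : K, x ^ l = algebraMap K F c} = ⊤) (r : ℕ)
    (T : Set K) (h0 : 0 ∉ T)
    (hT : ∀ δ ∈ T, ∀ δ' ∈ T, δ ≠ δ' → ∀ e ∈ ({1, -1, E.a₄, -E.a₄} : Set K), ∀ x : F,
      x ^ 2 * algebraMap K F δ' ≠ algebraMap K F (e * δ))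
    (n : ℕ) (u : Fin r → 𝓞 K)
    (hu : ∀ i q, Prime q → ¬ (q ^ 2 ∣ ((2 : ℕ) : 𝓞 K) ^ n ∧ q ^ 2 ∣ u i)) (t : ℕ) (v : ℝ)
    (hv : v = if T.Infinite then 1 else ∑ j ∈ Finset.Icc t T.ncard, (T.ncard.choose j : ℝ) *
      (cst 2 K F ^ ((2 ^ r - 1) * Module.finrank K F)) ^ j *
        (1 - cst 2 K F ^ ((2 ^ r - 1) * Module.finrank K F)) ^ (T.ncard - j)) (ε : ℝ) (hε : 0 < ε) :
    ∀ᶠ X : ℝ in Filter.atTop, v - ε ≤
      (Nat.card {d : Fin r → 𝓞 K //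
        (∀ i, Pf 2 (d i) ∧ ((2 : ℕ) : 𝓞 K) ^ n ∣ d i - u i) ∧
        (∃ A, A ≠ 0 ∧ |Algebra.norm ℤ A| ≤ X ∧ ∀ i, d i ∣ A ^ (2 - 1)) ∧
        t ≤ {δ ∈ T | Pool.Agent.Lib.MP_1a91b9_ntMQ.Fin.PropMF (tw 2 E K δ) F (cK K d)}.encard} : ℝ) /
        (Nat.card {d : Fin r → 𝓞 K // (∀ i, Pf 2 (d i) ∧ ((2 : ℕ) : 𝓞 K) ^ n ∣ d i - u i) ∧
          ∃ A, A ≠ 0 ∧ |Algebra.norm ℤ A| ≤ X ∧ ∀ i, d i ∣ A ^ (2 - 1)} : ℝ) := by
  obtain ⟨c, hc0⟩ : ∃ c, c = cst 2 K F := ⟨_, rfl⟩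
  have hc' : c = Pool.Agent.Lib.MP_1a91b9_ntDV.Fin.cst K F := by
    rw [hc0]
    unfold cst Pool.Agent.Lib.MP_1a91b9_ntDV.Fin.cst
    rw [if_neg (by norm_num : ¬ (2 : ℕ) = 3)]
  rw [← hc0] at hv
  have hc := hc'
  unfold Pool.Agent.Lib.MP_1a91b9_ntDV.Fin.cst at hc
  have two : ((2 : ℕ) : 𝓞 K) = 2 := Nat.cast_ofNat
  rw [two] at hu ⊢
  obtain ⟨m, hm0⟩ : ∃ m : 𝓞 K, m = 2 ^ n := ⟨_, rfl⟩
  rw [← hm0] at hu ⊢
  have hm : m ∣ 2 ^ n := by rw [hm0]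
  have hjD' : (j, D) ∈ Pool.Agent.Lib.MP_1a91b9_ntY.cmList := hjD
  obtain ⟨h1, h3, h6⟩ := hE
  obtain ⟨a, ha⟩ : ∃ a, a = E.a₂ := ⟨_, rfl⟩
  obtain ⟨b, hb⟩ : ∃ b, b = E.a₄ := ⟨_, rfl⟩
  have hE : E = crv a b := WeierstrassCurve.ext h1 ha.symm h3 hb.symm h6
  rw [← hb] at hT
  have hΔ' := hΔ
  have hj' := hj
  rw [hE] at hΔ' hj'
  rw [Pool.Agent.Lib.MP_1a91b9_ntY.crv_Δ] at hΔ' hj'
  rw [Pool.Agent.Lib.MP_1a91b9_ntY.crv_c₄] at hj'
  have hE' : b * (a ^ 2 - 4 * b) ≠ 0 := by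
    intro h
    refine hΔ' ?_
    linear_combination 16 * b * h
  have hj2 : 256 * (a ^ 2 - 3 * b) ^ 3 = j * (b ^ 2 * (a ^ 2 - 4 * b)) := by
    have h16 : (16 : K) ≠ 0 := by norm_num
    refine mul_left_cancel₀ h16 ?_
    linear_combination hj'
  have hb0 : b ≠ 0 := left_ne_zero_of_mul hE'
  have hneg : D < 0 := by
    have h7 := hjD'
    unfold Pool.Agent.Lib.MP_1a91b9_ntY.cmList at h7
    simp only [List.mem_cons, Prod.mk.injEq, List.not_mem_nil, or_false] at h7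
    rcases h7 with ⟨-, rfl⟩ | ⟨-, rfl⟩ | ⟨-, rfl⟩ | ⟨-, rfl⟩ | ⟨-, rfl⟩ | ⟨-, rfl⟩ | ⟨-, rfl⟩ |
      ⟨-, rfl⟩ | ⟨-, rfl⟩ | ⟨-, rfl⟩ | ⟨-, rfl⟩ | ⟨-, rfl⟩ | ⟨-, rfl⟩ <;> norm_num
  have hfu : Finite (𝓞 K)ˣ := by
    obtain ⟨s, hs⟩ := hD
    exact Pool.Agent.Lib.MP_1a91b9_ntW.J.finite_units hK
      (Pool.Agent.Lib.MP_1a91b9_ntW.J.no_real hs hneg)
  have hfin : ∀ X : ℝ, {D : 𝓞 K | Squarefree D ∧ |Algebra.norm ℤ D| ≤ X}.Finite := by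
    intro X
    refine (Pool.Agent.Lib.MP_1a91b9_ntW.J.finite_norm_le (K := K) X).subset ?_
    rintro d ⟨h1, h2⟩
    exact ⟨h1.ne_zero, h2⟩
  have hW : Pool.Agent.Lib.MP_1a91b9_ntY.CMK (crv a b) := by
    obtain ⟨s, hs⟩ := hD
    refine ⟨?_, j, D, s, hjD', hs, ?_⟩
    · rw [Pool.Agent.Lib.MP_1a91b9_ntY.crv_Δ]
      exact mul_ne_zero (mul_ne_zero (by norm_num) (pow_ne_zero 2 hb0)) (right_ne_zero_of_mul hE')
    · refine Pool.Agent.Lib.MP_1a91b9_ntY.hasJ_crv ?_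
      linear_combination 16 * hj2
  have hP : Pool.Agent.Lib.MP_1a91b9_ntY.Pt2 (crv a b) := by
    refine ⟨0, ?_⟩
    unfold crv WeierstrassCurve.b₂ WeierstrassCurve.b₄ WeierstrassCurve.b₆
    ring
  have hpi : IsPrincipalIdealRing (𝓞 K) := Pool.Agent.Lib.MP_1a91b9_ntC.pid_of hK hW hP
  have hfew : FewD (𝓞 K) := by
    have h7 := Pool.Agent.Lib.MP_1a91b9_ntMQ.stdI_all hK a b hE' j D hjD' hj2 hD l hl F hF 0 ∅
      (fun δ hδ => absurd hδ (Finset.notMem_empty δ)) (fun δ hδ => absurd hδ (Finset.notMem_empty δ))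
      0 0 1 0 (one_dvd _)
      (fun p hp h => hp.not_isUnit (isUnit_of_dvd_one ((dvd_pow_self p two_ne_zero).trans h.1))) c hc
    exact fewD_of hfin h7
  have hcp : ClsP (𝓞 K) r m u :=
    P5_cpk hK hW hP r m u ⟨⟨n, hm⟩, fun i => ⟨⟨n, hm⟩, fun q => hu i q⟩⟩
  have hsm : Sm (𝓞 K) r m u := sm_of hfin (fun A d hA hd => norm_dvd_le A d hA hd) hfew hcp
  have hcb : CB (c ^ ((2 ^ r - 1) * Module.finrank K F)) := (cb_two hc).pow _
  have key : ∀ S : Finset K, (S : Set K) ⊆ T →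
      CovGI (𝓞 K) r m u (fun d => t ≤ (S.filter fun δ : K =>
        PropMF (tw 2 E K δ) F (cK K d)).card)
        (bn S.card t (c ^ ((2 ^ r - 1) * Module.finrank K F))) := by
    intro S hS
    obtain ⟨δ, hδ⟩ : ∃ δ : Fin S.card → K, δ = fun i => ((S.equivFin.symm i : S) : K) := ⟨_, rfl⟩
    have hδT : ∀ i, δ i ∈ T := fun i => by
      rw [hδ]
      exact hS (S.equivFin.symm i).2
    have hinj : ∀ i i', i ≠ i' → δ i ≠ δ i' := fun i i' hii h => by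
      rw [hδ] at h
      exact hii (S.equivFin.symm.injective (Subtype.ext h))
    have hδ0 : ∀ i, δ i ≠ 0 := fun i h => h0 (by rw [← h]; exact hδT i)
    have hst := stdT hK a b hE' j D hjD' hj2 hD l hl F hF r S.card δ hδ0
      (fun i i' hii e he ⟨x, hx⟩ => by
        have hδF : algebraMap K F (δ i') ≠ 0 := (map_ne_zero _).2 (hδ0 i')
        refine hT (δ i) (hδT i) (δ i') (hδT i') (hinj i i' hii) e he
          (x * (algebraMap K F (δ i'))⁻¹) ?_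
        rw [map_mul, map_mul] at hx
        rw [map_mul, mul_pow, hx]
        field_simp) t n m u hm (fun i p hp => hu i p hp) c hc
    have h2 := dstT K hK a b hE' j D hjD' hj2 hD l hl F hF r S.card δ hδ0 m u hsm _ t hst
    refine h2.mono (fun X => lcs_finite r X) fun d _ h3 => P5_cnt S t _ (h3.mono fun i hi => ?_)
    have hδi : ((S.equivFin.symm i : S) : K) = δ i := by rw [hδ]
    rw [hδi]
    have htw := P5_tw hE (δ i)
    have hne : δ i ≠ 0 := hδ0 i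
    refine propMF_of hK (tw 2 E K (δ i)) (δ i * a) (δ i ^ 2 * b) htw j D hjD ?_ hD F _ hi
    rw [htw, Pool.Agent.Lib.MP_1a91b9_ntY.crv_Δ, Pool.Agent.Lib.MP_1a91b9_ntY.crv_c₄]
    linear_combination (δ i) ^ 6 * hj'
  have key' := set_covI (fun X => lcs_finite r X) (Q := fun (δ : K) (d : Fin r → 𝓞 K) =>
    PropMF (tw 2 E K δ) F (cK K d)) (T := T) (t := t)
    hcb.1 hcb.2 (v := v) (by rw [hv, bn]) key
  filter_upwards [key' ε hε] with X hX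
  refine hX.trans (le_of_eq ?_)
  have e1 : Nat.card {d : Fin r → 𝓞 K // (∃ A : 𝓞 K, Squarefree A ∧ |Algebra.norm ℤ A| ≤ X ∧
      ∀ i, d i ∣ A) ∧ (∀ i, m ∣ d i - u i) ∧
        (t : ℕ∞) ≤ {δ ∈ T | PropMF (tw 2 E K δ) F (cK K d)}.encard} =
      Nat.card {d : Fin r → 𝓞 K // (∀ i, Pf 2 (d i) ∧ m ∣ d i - u i) ∧
        (∃ A, A ≠ 0 ∧ |Algebra.norm ℤ A| ≤ X ∧ ∀ i, d i ∣ A ^ (2 - 1)) ∧
        (t : ℕ∞) ≤ {δ ∈ T | PropMF (tw 2 E K δ) F (cK K d)}.encard} := by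
    refine Nat.card_congr (Equiv.subtypeEquivRight fun d => ?_)
    simp only [← P5_pf, Nat.add_one_sub_one, pow_one]
    rw [← lcs_iff, forall_and]
    tauto
  have e2 : Nat.card {d : Fin r → 𝓞 K // (∃ A : 𝓞 K, Squarefree A ∧ |Algebra.norm ℤ A| ≤ X ∧
      ∀ i, d i ∣ A) ∧ ∀ i, m ∣ d i - u i} =
      Nat.card {d : Fin r → 𝓞 K // (∀ i, Pf 2 (d i) ∧ m ∣ d i - u i) ∧
        ∃ A, A ≠ 0 ∧ |Algebra.norm ℤ A| ≤ X ∧ ∀ i, d i ∣ A ^ (2 - 1)} := by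
    refine Nat.card_congr (Equiv.subtypeEquivRight fun d => ?_)
    simp only [← P5_pf, Nat.add_one_sub_one, pow_one]
    rw [← lcs_iff, forall_and]
    tauto
  rw [e1, e2]

end Pool.Agent.Lib.MP_1a91b9_ntDT
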