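import Pool.Agent.Lib.MP_1a91b9_ntMC.A1

/-!
# MP_1a91b9_nt (the discriminant form, sets of curves): definitions, `p = 3`
-/

set_option autoImplicit false

namespace Pool.Agent.Lib.MP_1a91b9_ntDT

open NumberField
open Pool.Agent.Lib.MP_1a91b9_ntMC
open Pool.Agent.Lib.MP_1a91b9_ntZ (bn AtF)

/-- No `α` of `Δ` is a cube in `F`, and no quotient and no product of two different ones. -/
def SepT {K : Type} [Field K] [NumberField K] (F : Type) [Field F] [Algebra K F]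
    (Δ : Finset (𝓞 K)) : Prop :=
  (∀ α ∈ Δ, ¬ ∃ y : F, y ^ 3 = algebraMap K F (α : K)) ∧
  ∀ α ∈ Δ, ∀ α' ∈ Δ, α ≠ α' → (¬ ∃ y : F, y ^ 3 * algebraMap K F (α' : K) = algebraMap K F (α : K)) ∧
    ¬ ∃ y : F, y ^ 3 = algebraMap K F ((α : K) * (α' : K))

/-- The law for the curves `y² + α y = x³`, `α` in `Δ`. -/
def KBT (K : Type) [Field K] [NumberField K] : Prop :=
  ∀ (F : Type) [Field F] [NumberField F] [Algebra K F],
    IntermediateField.adjoin K {x : F | ∃ c : K, x ^ 3 = algebraMap K F c} = ⊤ →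
    ∀ (r n : ℕ) (m : 𝓞 K) (u : Fin r → 𝓞 K), m ∣ 3 ^ n →
    (∀ i, ∀ p, Prime p → ¬ (p ^ 3 ∣ m ∧ p ^ 3 ∣ u i)) →
    ∀ Δ : Finset (𝓞 K), SepT F Δ → ∀ t : ℕ,
      CovG3 (𝓞 K) r m u (fun d => AtF Δ t fun α => RkA F α d)
        (bn Δ.card t ((∏' i : ℕ, (1 + 1 / (3 : ℝ) ^ (i + 1))⁻¹) ^
          ((3 ^ r - 1) * Module.finrank K F)))

end Pool.Agent.Lib.MP_1a91b9_ntDT
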