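import Pool.Agent.Lib.MP_1a91b9_ntDT.Q0
import Pool.Agent.Lib.MP_1a91b9_ntMC.J4
import Pool.Agent.Lib.MP_1a91b9_ntMC.CP

/-!
# MP_1a91b9_nt (the discriminant form, sets of curves): the law for the standard model, `p = 3`
-/

set_option autoImplicit false
set_option linter.unusedSectionVars false

namespace Pool.Agent.Lib.MP_1a91b9_ntDT

open NumberField IsDedekindDomain Finset WeierstrassCurve Pool.Agent.Lib.MP_1a91b9_ntN.H
  Pool.Agent.Lib.MP_1a91b9_ntZ
open Pool.Agent.Lib.MP_1a91b9_ntMC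
open Pool.Agent.Lib.MP_1a91b9_ntCC (mct_full)
open Pool.Agent.Lib.MP_1a91b9_ntN (MCT Wt_good)
open Pool.Agent.Lib.MP_1a91b9_ntH (s3 prime_s3 s3_sq)
open Pool.Agent.Lib.MP_1a91b9_ntS3.G (G9 c9 Q9)

private theorem Q1_alg1 {F : Type} [Field F] {b g z x : F} (hz : z ≠ 0) (h : b = g * z ^ 3) :
    g * x = b * x * z⁻¹ ^ 3 := by
  have h1 : z ^ 3 * z⁻¹ ^ 3 = 1 := by rw [← mul_pow, mul_inv_cancel₀ hz, one_pow]
  rw [h]
  linear_combination -(g * x) * h1

private theorem Q1_alg2 {F : Type} [Field F] {b g z x w : F} (hz : z ≠ 0) (h : b = g * z ^ 3) :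
    g * x * w ^ 3 = b * x * (w * z⁻¹) ^ 3 := by
  have h1 : z ^ 3 * z⁻¹ ^ 3 = 1 := by rw [← mul_pow, mul_inv_cancel₀ hz, one_pow]
  rw [h]
  linear_combination -(g * x * w ^ 3) * h1

open Pool.Agent.Lib.MP_1a91b9_ntT (K) in
/-- The curves `Y² + x Y = X³` and `Y² + y Y = X³` with `x = y s³` are isomorphic. -/
private theorem Q1_Wt_congr {x y : 𝓞 K} {s : K} (hs : s ≠ 0) (h : (x : K) = (y : K) * s ^ 3)
    (h1 : Pool.Agent.Lib.MP_1a91b9_nuX.LG.LConcl (Pool.Agent.Lib.MP_1a91b9_ntN.Wt K x) ∧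
      Finite (Pool.Agent.Lib.MP_1a91b9_ntN.Wt K x).toAffine.Point) :
    Pool.Agent.Lib.MP_1a91b9_nuX.LG.LConcl (Pool.Agent.Lib.MP_1a91b9_ntN.Wt K y) ∧
      Finite (Pool.Agent.Lib.MP_1a91b9_ntN.Wt K y).toAffine.Point := by
  obtain ⟨C, hC⟩ : ∃ C : VariableChange K, C • Pool.Agent.Lib.MP_1a91b9_ntN.Wt K x =
      Pool.Agent.Lib.MP_1a91b9_ntN.Wt K y := by
    refine ⟨⟨Units.mk0 s hs, 0, 0, 0⟩, ?_⟩
    rw [Pool.Agent.Lib.MP_1a91b9_ntN.Wt_K, Pool.Agent.Lib.MP_1a91b9_ntN.Wt_K, h]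
    ext
    · simp [variableChange_a₁]
    · simp [variableChange_a₂]
    · simp only [variableChange_a₃, Units.val_inv_eq_inv_val, Units.val_mk0]
      field_simp
      ring
    · simp [variableChange_a₄]
    · simp [variableChange_a₆]
  refine ⟨?_, ?_⟩
  · obtain ⟨g, hg, hg1, hg2⟩ := h1.1
    refine ⟨g, hg, fun z hz => ?_, hg2⟩
    rw [hg1 z hz, Pool.Agent.Lib.MP_1a91b9_ntN.LSer_congr fun v =>
      Pool.Agent.Lib.MP_1a91b9_nuX.LG.locPoly_iso hC v (Pool.Agent.Lib.MP_1a91b9_ntN.Wt_ji y v)]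
  · have h2 := h1.2
    rw [← hC]
    exact Finite.of_injective _ (Pool.Agent.Lib.MP_1a91b9_nt.vcFun_bijective
      (Pool.Agent.Lib.MP_1a91b9_ntN.Wt K x) C).1

open Pool.Agent.Lib.MP_1a91b9_ntT (K) in
/-- The curve of a good element. -/
private theorem Q1_Wt_GdE {x : 𝓞 K} (h : GdE x) :
    Pool.Agent.Lib.MP_1a91b9_nuX.LG.LConcl (Pool.Agent.Lib.MP_1a91b9_ntN.Wt K x) ∧
      Finite (Pool.Agent.Lib.MP_1a91b9_ntN.Wt K x).toAffine.Point := by
  have h2 := Wt_good (a := x) (d := 1) (by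
    obtain ⟨b, k, j, S, T, s, e1, e2, e3, e4⟩ := h
    exact ⟨b, k, j, S, T, s, e1, e2, by rw [mul_one]; exact e3, e4⟩)
  rw [mul_one] at h2
  exact h2

open Pool.Agent.Lib.MP_1a91b9_ntT (K) in
private theorem Q1_toRk {y : 𝓞 K}
    (h : Pool.Agent.Lib.MP_1a91b9_nuX.LG.LConcl (Pool.Agent.Lib.MP_1a91b9_ntN.Wt K y) ∧
      Finite (Pool.Agent.Lib.MP_1a91b9_ntN.Wt K y).toAffine.Point) :
    Rk (⟨0, 0, (y : K), 0, 0⟩ : WeierstrassCurve K) := by
  rw [Pool.Agent.Lib.MP_1a91b9_ntN.Wt_K] at h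
  exact h

open Pool.Agent.Lib.MP_1a91b9_ntT (K) in
/-- The elements of the list are different modulo cubes. -/
private theorem Q1_dis {F : Type} [Field F] [Algebra K F] {A : List (𝓞 K)}
    (hok : Pool.Agent.Lib.MP_1a91b9_ntN.MCok F A) (l l' : Fin A.length) (hl : l ≠ l') :
    ¬ ∃ y : K, y ^ 3 * ((A.get l' : 𝓞 K) : K) = ((A.get l : 𝓞 K) : K) := by
  have hpw := List.pairwise_iff_get.1 hok.pw
  rcases lt_or_gt_of_ne hl with h | h
  · exact hpw l l' h
  · rintro ⟨y, hy⟩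
    refine hpw l' l h ⟨y⁻¹, ?_⟩
    have hy0 : y ≠ 0 := by
      rintro rfl
      rw [zero_pow three_ne_zero, zero_mul] at hy
      exact hok.ne _ (List.get_mem A l) (by exact_mod_cast hy.symm)
    rw [← hy, ← mul_assoc, ← mul_pow, inv_mul_cancel₀ hy0, one_pow, one_mul]

/-- The blocks as a finite set. -/
private theorem Q1_AtF {A : Type} {Δ : Finset A} {k t : ℕ} (e : Fin k ≃ Δ) {P : Fin k → Prop}
    {Q : A → Prop} (h : ∀ i, P i → Q (e i).1) (hP : Atl t P) : AtF Δ t Q := by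
  classical
  refine hP.trans (card_le_card_of_injOn (fun i => (e i).1) (fun i hi => ?_)
    fun i _ j _ h => e.injective (Subtype.ext h))
  rw [mem_coe, mem_filter] at hi ⊢
  exact ⟨(e i).2, h i hi.2⟩

open Pool.Agent.Lib.MP_1a91b9_ntT (K) in
/-- The model has finitely many units. -/
private theorem Q1_fin (r : ℕ) (X : ℝ) : (lc3 (𝓞 K) r X).Finite := by
  have hs : ((s3 : 𝓞 K) : K) ^ 2 = ((-3 : ℤ) : K) := by
    have h := congrArg (fun z : 𝓞 K => (z : K)) s3_sq
    push_cast at h ⊢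
    exact h
  have hfu : Finite (𝓞 K)ˣ := Pool.Agent.Lib.MP_1a91b9_ntW.J.finite_units
    Pool.Agent.Lib.MP_1a91b9_ntH.finrank_K
    (Pool.Agent.Lib.MP_1a91b9_ntW.J.no_real hs (by norm_num))
  exact lc3_finite r X

open Pool.Agent.Lib.MP_1a91b9_ntT (K) in
private theorem Q1_main : KBT K := by
  classical
  intro F _ _ _ hF r n m u hm hu' Δ hsep t
  have hu : ∀ i, ¬ (s3 ^ 3 ∣ m ∧ s3 ^ 3 ∣ u i) := fun i => hu' i _ prime_s3
  obtain ⟨A, hA⟩ := MCT.exists_of hF
  have hok := hA.ok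
  have hα : ∀ α : Δ, (α : 𝓞 K) ≠ 0 := by
    intro α h0
    refine hsep.1 α α.2 ⟨0, ?_⟩
    rw [h0, zero_pow three_ne_zero]
    simp
  have hαK : ∀ α : Δ, (((α : 𝓞 K)) : K) ≠ 0 := fun α => by exact_mod_cast hα α
  have hαF : ∀ α : Δ, algebraMap K F (((α : 𝓞 K)) : K) ≠ 0 := fun α => by
    rw [Ne, map_eq_zero]
    exact hαK α
  have hN : 0 < A.length * 2 := by
    rw [hok.len]
    exact Nat.mul_pos Module.finrank_pos two_pos
  have hget : ∀ l : Fin A.length, A.get l ∈ A := fun l => List.get_mem A l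
  have hget0 : ∀ l : Fin A.length, A.get l ≠ 0 := fun l => hok.ne _ (hget l)
  have hgetK : ∀ l : Fin A.length, ((A.get l : 𝓞 K) : K) ≠ 0 := fun l => by
    exact_mod_cast hget0 l
  have hcube : ∀ l : Fin A.length, ∃ β : F, β ≠ 0 ∧ β ^ 3 = algebraMap K F (A.get l : K) := by
    intro l
    obtain ⟨β, hβ⟩ := hok.cu _ (hget l)
    refine ⟨β, ?_, hβ⟩
    rintro rfl
    rw [zero_pow three_ne_zero, eq_comm, map_eq_zero] at hβ
    exact hgetK l hβ
  -- the element of the label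
  obtain ⟨el, hel⟩ : ∃ el : 𝓞 K → Fin A.length × Fin 2 → 𝓞 K,
      ∀ α q, el α q = if q.2 = 0 then α * A.get q.1 else α ^ 2 * A.get q.1 ^ 2 :=
    ⟨_, fun _ _ => rfl⟩
  have el0 : ∀ α l, el α (l, 0) = α * A.get l := fun α l => by
    rw [hel, if_pos rfl]
  have el1 : ∀ α l, el α (l, 1) = α ^ 2 * A.get l ^ 2 := fun α l => by
    rw [hel, if_neg (by decide : ¬ ((1 : Fin 2) = 0))]
  -- mixed labels
  have hmix : ∀ (α α' : Δ) (l l' : Fin A.length),
      ¬ ∃ y : K, y ^ 3 * (el α' (l', 1) : K) = (el α (l, 0) : K) := by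
    rintro α α' l l' ⟨y, hy⟩
    rw [el0, el1] at hy
    push_cast at hy
    obtain ⟨β, hβ0, hβ⟩ := hcube l
    obtain ⟨β', hβ0', hβ'⟩ := hcube l'
    have hy0 : y ≠ 0 := by
      rintro rfl
      rw [zero_pow three_ne_zero, zero_mul] at hy
      exact mul_ne_zero (hαK α) (hgetK l) hy.symm
    have hyF : algebraMap K F y ≠ 0 := by rwa [map_ne_zero]
    have h1 := congrArg (algebraMap K F) hy
    simp only [map_mul, map_pow] at h1
    rw [← hβ, ← hβ'] at h1
    by_cases hd : α = α'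
    · subst hd
      refine hsep.1 α α.2 ⟨β / (algebraMap K F y * β' ^ 2), ?_⟩
      rw [div_pow, div_eq_iff (pow_ne_zero 3 (mul_ne_zero hyF (pow_ne_zero 2 hβ0')))]
      refine mul_left_cancel₀ (hαF α) ?_
      linear_combination -h1
    · refine (hsep.2 α α.2 α' α'.2 fun h => hd (Subtype.ext h)).2
        ⟨algebraMap K F y * algebraMap K F (((α' : 𝓞 K)) : K) * β' ^ 2 / β, ?_⟩
      rw [div_pow, div_eq_iff (pow_ne_zero 3 hβ0), map_mul]
      linear_combination algebraMap K F (((α' : 𝓞 K)) : K) * h1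
  obtain ⟨e, -⟩ : ∃ e : Fin Δ.card ≃ Δ, True := ⟨Δ.equivFin.symm, trivial⟩
  have key := den_allM jm3 covPos3M (n := n) (r := r) (k := Δ.card) (N := A.length * 2) hN
    (fun _ _ x => if (finProdFinEquiv.symm x).2 = 0 then 0 else 1)
    (fun b _ x => el (e b).1 (finProdFinEquiv.symm x)) ?_ ?_ (w := 1) zero_le_one le_rfl ?_
    (hm.trans (pow3_dvd_Q9 n)) hu t
  · have hex : (3 ^ r - 1) * Module.finrank K F = A.length * 2 * (Rp r).card := by
      rw [← two_card_Rp, hok.len]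
      ring
    rw [hex]
    rw [one_mul] at key
    refine key.mono (Q1_fin r) fun d hd h => Q1_AtF e (fun b hb => ?_) h
    have hd0 : ∀ i, d i ≠ 0 := fun i h1 => by
      refine hd i s3 prime_s3 ?_
      rw [h1]
      exact dvd_zero _
    obtain ⟨α, hαe⟩ : ∃ α : Δ, α = e b := ⟨_, rfl⟩
    rw [← hαe] at hb ⊢
    intro χ hχ b' hb' hcb
    have hbK : ((b' : 𝓞 K) : K) ≠ 0 := by exact_mod_cast hb'
    obtain ⟨a, ha, z, hz⟩ := mct_full hA (b' : K) hbK hcb
    obtain ⟨l, rfl⟩ := List.mem_iff_get.1 ha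
    have hz0 : z ≠ 0 := by
      rintro rfl
      rw [zero_pow three_ne_zero, mul_zero] at hz
      exact hbK hz
    rcases Rp_or hχ with hR | hR
    · have h1 := hb χ hR (finProdFinEquiv (l, 0))
      simp only [Equiv.symm_apply_apply, if_pos] at h1
      rw [el0] at h1
      have h2 := Q1_Wt_GdE (h1.1 (by decide))
      have h3 : α.1 * A.get l * ∏ j, d j ^ (χ j).val = A.get l * (α.1 * chp χ d) := by
        unfold chp
        ring
      rw [h3] at h2
      refine Q1_toRk <| Q1_Wt_congr (s := z⁻¹) (inv_ne_zero hz0) ?_ h2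
      push_cast
      exact Q1_alg1 hz0 hz
    · have h1 := hb (-χ) hR (finProdFinEquiv (l, 1))
      simp only [Equiv.symm_apply_apply, if_neg (by decide : ¬ ((1 : Fin 2) = 0))] at h1
      rw [el1] at h1
      have h2 := Q1_Wt_GdE (h1.2 (by decide))
      obtain ⟨s, hs0, hs⟩ := chp_neg (-χ) hd0
      rw [neg_neg] at hs
      have hsK : ((s : 𝓞 K) : K) ≠ 0 := by exact_mod_cast hs0
      refine Q1_toRk <| Q1_Wt_congr (s := ((α.1 : 𝓞 K) : K) * (A.get l : K) * (s : K) * z⁻¹)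
        (mul_ne_zero (mul_ne_zero (mul_ne_zero (hαK α) (hgetK l)) hsK) (inv_ne_zero hz0)) ?_ h2
      have h3 : (∏ j, d j ^ ((-χ) j).val : 𝓞 K) = chp (-χ) d := rfl
      have h4 : (α.1 ^ 2 * A.get l ^ 2 * ∏ j, d j ^ ((-χ) j).val) ^ 2 =
          A.get l * (α.1 * chp χ d) * (α.1 * A.get l * s) ^ 3 := by
        rw [h3]
        linear_combination (α.1 ^ 4 * A.get l ^ 4) * hs
      rw [h4]
      push_cast
      exact Q1_alg2 hz0 hz
  · -- the elements are different from zero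
    rintro b χ l
    rw [hel]
    split_ifs
    · exact mul_ne_zero (hα _) (hget0 _)
    · exact mul_ne_zero (pow_ne_zero 2 (hα _)) (pow_ne_zero 2 (hget0 _))
  · -- different modulo cubes
    rintro χ - ⟨b, l⟩ ⟨b', l'⟩ hne ⟨y, hy⟩
    obtain ⟨α, hαe⟩ : ∃ α : Δ, α = e b := ⟨_, rfl⟩
    obtain ⟨α', hαe'⟩ : ∃ α' : Δ, α' = e b' := ⟨_, rfl⟩
    have hne' : ¬ (α = α' ∧ l = l') := by
      rintro ⟨h1, h2⟩
      apply hne
      rw [hαe, hαe'] at h1
      rw [e.injective h1, h2]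
    dsimp only at hy
    rw [← hαe, ← hαe'] at hy
    obtain ⟨⟨l, i⟩, rfl⟩ := finProdFinEquiv.surjective l
    obtain ⟨⟨l', i'⟩, rfl⟩ := finProdFinEquiv.surjective l'
    simp only [Equiv.symm_apply_apply] at hy
    obtain ⟨β, hβ0, hβ⟩ := hcube l
    obtain ⟨β', hβ0', hβ'⟩ := hcube l'
    have hi : i = 0 ∨ i = 1 := by
      fin_cases i
      · exact Or.inl rfl
      · exact Or.inr rfl
    have hi' : i' = 0 ∨ i' = 1 := by
      fin_cases i'
      · exact Or.inl rfl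
      · exact Or.inr rfl
    have hy0 : y ≠ 0 := by
      rintro rfl
      rw [zero_pow three_ne_zero, zero_mul, eq_comm] at hy
      rcases hi with rfl | rfl
      · rw [el0] at hy
        exact mul_ne_zero (hα α) (hget0 l) (by exact_mod_cast hy)
      · rw [el1] at hy
        exact mul_ne_zero (pow_ne_zero 2 (hα α)) (pow_ne_zero 2 (hget0 l)) (by exact_mod_cast hy)
    have hyF : algebraMap K F y ≠ 0 := by rwa [map_ne_zero]
    rcases hi with rfl | rfl <;> rcases hi' with rfl | rfl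
    · rw [el0, el0] at hy
      push_cast at hy
      by_cases hd : α = α'
      · subst hd
        have hl : l ≠ l' := fun h => hne' ⟨rfl, by rw [h]⟩
        refine Q1_dis hok l l' hl ⟨y, mul_left_cancel₀ (hαK α) ?_⟩
        linear_combination hy
      · have h1 := congrArg (algebraMap K F) hy
        simp only [map_mul, map_pow] at h1
        rw [← hβ, ← hβ'] at h1
        refine (hsep.2 α α.2 α' α'.2 fun h => hd (Subtype.ext h)).1
          ⟨algebraMap K F y * β' / β, ?_⟩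
        rw [div_pow, div_mul_eq_mul_div, div_eq_iff (pow_ne_zero 3 hβ0)]
        linear_combination h1
    · exact hmix α α' l l' ⟨y, hy⟩
    · refine hmix α' α l' l ⟨y⁻¹, ?_⟩
      rw [← hy, ← mul_assoc, ← mul_pow, inv_mul_cancel₀ hy0, one_pow, one_mul]
    · rw [el1, el1] at hy
      push_cast at hy
      by_cases hd : α = α'
      · subst hd
        have hl : l ≠ l' := fun h => hne' ⟨rfl, by rw [h]⟩
        have hy2 : y ^ 3 * ((A.get l' : 𝓞 K) : K) ^ 2 = ((A.get l : 𝓞 K) : K) ^ 2 := by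
          refine mul_left_cancel₀ (pow_ne_zero 2 (hαK α)) ?_
          linear_combination hy
        refine Q1_dis hok l l' hl ⟨((A.get l : 𝓞 K) : K) / (((A.get l' : 𝓞 K) : K) * y), ?_⟩
        have hb := hgetK l
        have hb' := hgetK l'
        rw [div_pow, div_mul_eq_mul_div, div_eq_iff (pow_ne_zero 3 (mul_ne_zero hb' hy0))]
        linear_combination -((A.get l : 𝓞 K) : K) * ((A.get l' : 𝓞 K) : K) * hy2
      · have h1 := congrArg (algebraMap K F) hy
        simp only [map_mul, map_pow] at h1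
        rw [← hβ, ← hβ'] at h1
        refine (hsep.2 α α.2 α' α'.2 fun h => hd (Subtype.ext h)).1
          ⟨algebraMap K F (((α : 𝓞 K)) : K) * β ^ 2 /
            (algebraMap K F (((α' : 𝓞 K)) : K) * algebraMap K F y * β' ^ 2), ?_⟩
        rw [div_pow, div_mul_eq_mul_div, div_eq_iff (pow_ne_zero 3
          (mul_ne_zero (mul_ne_zero (hαF α') hyF) (pow_ne_zero 2 hβ0')))]
        linear_combination -(algebraMap K F (((α : 𝓞 K)) : K) *
          algebraMap K F (((α' : 𝓞 K)) : K)) * h1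
  · -- no label of type `2`
    intro b χ l hl
    exfalso
    split_ifs at hl
    · exact absurd hl (by decide)
    · exact absurd hl (by decide)

/-- **The law for sets of curves, for the model of `ℚ(√-3)`.** (As `A1_case1` in `MC/A1`, with the labels
`α * A l` for `χ` and `α ^ 2 * A l ^ 2` for `-χ`, `α` in `Δ`, in place of `α * chp χ δ * A l` and
`α ^ 2 * chp χ δ * A l ^ 2`; `den_allM jm3 covPos3M`, `w = 1`. The labels are different modulo cubes of `K`: `α A l`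
and `α' A l'` by the quotients, `α² A l²` and `α'² A l'²` as well, `α A l` and `α'² A l'²` as `α α'` is no cube in
`F`, for `α = α'` as `α` is none.) -/
theorem kbt_main : KBT Pool.Agent.Lib.MP_1a91b9_ntT.K := Q1_main

end Pool.Agent.Lib.MP_1a91b9_ntDT
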