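import Pool.Agent.Lib.MP_1a91b9_ntDT.Q1

/-!
# MP_1a91b9_nt (the discriminant form, sets of curves): transport, `p = 3`
-/

set_option autoImplicit false

namespace Pool.Agent.Lib.MP_1a91b9_ntDT

open NumberField
open Pool.Agent.Lib.MP_1a91b9_ntMC
open Pool.Agent.Lib.MP_1a91b9_ntZ (bn AtF)

private theorem Q2_map_chp {R S : Type} [CommSemiring R] [CommSemiring S] (f : R →+* S) {r : ℕ}
    (χ : Fin r → ZMod 3) (e : Fin r → R) : f (chp χ e) = chp χ fun i => f (e i) := by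
  unfold chp
  rw [map_prod]
  exact Finset.prod_congr rfl fun i _ => map_pow f _ _

/-- The rank part over a field isomorphic to `K`. -/
private theorem Q2_RkA {K K' : Type} [Field K] [NumberField K] [Field K'] [NumberField K']
    (e : K ≃+* K') {F : Type} [Field F] [Algebra K F] [Algebra K' F]
    (hal : ∀ x : K, algebraMap K F x = algebraMap K' F (e x)) {α : 𝓞 K} {r : ℕ}
    {w : Fin r → 𝓞 K} (h : RkA F α w) :
    RkA F (RingOfIntegers.mapRingEquiv e α) (fun i => RingOfIntegers.mapRingEquiv e (w i)) := by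
  rintro χ hχ b' hb' ⟨y, hy⟩
  obtain ⟨E, hE⟩ : ∃ E : 𝓞 K ≃+* 𝓞 K', E = RingOfIntegers.mapRingEquiv e := ⟨_, rfl⟩
  have hEe : ∀ d : 𝓞 K, ((E d : 𝓞 K') : K') = e (d : K) := fun d => by
    rw [hE]
    rfl
  rw [← hE]
  obtain ⟨b, rfl⟩ := E.surjective b'
  have h1 := h χ hχ b (fun h0 => hb' (by rw [h0, map_zero])) ⟨y, by rw [hy, hal, hEe]⟩
  have h2 := Rk_equiv e h1
  have h4 : E (chp χ w) = chp χ (fun i => E (w i)) := Q2_map_chp (E : 𝓞 K →+* 𝓞 K') χ w
  have h3 : e ((b * (α * chp χ w) : 𝓞 K) : K) =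
      ((E b * (E α * chp χ fun i => E (w i)) : 𝓞 K') : K') := by
    rw [← hEe, map_mul, map_mul, h4]
  rw [h3] at h2
  exact h2

/-- The same, in both directions. -/
private theorem Q2_RkA_iff {K K' : Type} [Field K] [NumberField K] [Field K'] [NumberField K']
    (e : K ≃+* K') {F : Type} [Field F] [Algebra K F] [Algebra K' F]
    (hal : ∀ x : K, algebraMap K F x = algebraMap K' F (e x)) (α : 𝓞 K) {r : ℕ}
    (w : Fin r → 𝓞 K) :
    RkA F α w ↔
    RkA F (RingOfIntegers.mapRingEquiv e α) (fun i => RingOfIntegers.mapRingEquiv e (w i)) := by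
  refine ⟨Q2_RkA e hal, fun h => ?_⟩
  have h1 := Q2_RkA e.symm (fun x => by rw [hal, e.apply_symm_apply]) h
  have h2 : ∀ x : 𝓞 K, RingOfIntegers.mapRingEquiv e.symm (RingOfIntegers.mapRingEquiv e x) = x :=
    fun x => RingOfIntegers.ext (e.symm_apply_apply (x : K))
  simp only [h2] at h1
  exact h1

/-- **Transport.** (As `KBM.equiv` in `MC/A1`.) -/
theorem kbt_equiv {K K' : Type} [Field K] [NumberField K] [Field K'] [NumberField K'] (e : K ≃+* K')
    (H : KBT K) : KBT K' := by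
  intro F _ _ _ hF r n m' u' hm hu Δ' hsep t
  refine CovG3.tr e ?_
  obtain ⟨E, hE⟩ : ∃ E : 𝓞 K ≃+* 𝓞 K', E = RingOfIntegers.mapRingEquiv e := ⟨_, rfl⟩
  have hEe : ∀ d : 𝓞 K, ((E d : 𝓞 K') : K') = e (d : K) := fun d => by
    rw [hE]
    rfl
  rw [← hE]
  obtain ⟨Δ, rfl⟩ : ∃ Δ : Finset (𝓞 K), Δ.map E.toEquiv.toEmbedding = Δ' := by
    refine ⟨Δ'.map E.toEquiv.symm.toEmbedding, ?_⟩
    rw [Finset.map_map]
    ext x
    rw [Finset.mem_map]
    constructor
    · rintro ⟨y, hy, rfl⟩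
      show E.toEquiv (E.toEquiv.symm y) ∈ Δ'
      rw [E.toEquiv.apply_symm_apply]
      exact hy
    · intro hx
      exact ⟨x, hx, E.toEquiv.apply_symm_apply x⟩
  let _ : Algebra K F := ((algebraMap K' F).comp (e : K →+* K')).toAlgebra
  have hal : ∀ x : K, algebraMap K F x = algebraMap K' F (e x) := fun _ => rfl
  have hr : Set.range (algebraMap K F) = Set.range (algebraMap K' F) := by
    ext y
    constructor
    · rintro ⟨x, rfl⟩
      exact ⟨e x, (hal x).symm⟩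
    · rintro ⟨x, rfl⟩
      exact ⟨e.symm x, by rw [hal, e.apply_symm_apply]⟩
  have hset : {x : F | ∃ c : K, x ^ 3 = algebraMap K F c} =
      {x : F | ∃ c : K', x ^ 3 = algebraMap K' F c} := by
    ext x
    constructor
    · rintro ⟨c, hc⟩
      exact ⟨e c, hc⟩
    · rintro ⟨c, hc⟩
      exact ⟨e.symm c, by rw [hal, e.apply_symm_apply]; exact hc⟩
  have hmem : ∀ α : 𝓞 K, α ∈ Δ → E α ∈ Δ.map E.toEquiv.toEmbedding := fun α hα =>
    Finset.mem_map.2 ⟨α, hα, rfl⟩
  have h1 := H F (Pool.Agent.Lib.MP_1a91b9_ntN.adjoin_top hr (by rw [hset]; exact hF)) r n (E.symm m')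
    (fun i => E.symm (u' i)) ?_ ?_ Δ ?_ t
  · have hfin : Module.finrank K F = Module.finrank K' F :=
      Algebra.finrank_eq_of_equiv_equiv e (RingEquiv.refl F) (by ext x; rfl)
    rw [hfin] at h1
    rw [Finset.card_map]
    have h2 : (fun d : Fin r → 𝓞 K => AtF Δ t fun α => RkA F α d) =
        fun d : Fin r → 𝓞 K => AtF (Δ.map E.toEquiv.toEmbedding) t fun α =>
          RkA F α (fun i => E (d i)) := by
      funext d
      rw [Pool.Agent.Lib.MP_1a91b9_ntZ.AtF_map]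
      refine propext (Pool.Agent.Lib.MP_1a91b9_ntZ.AtF.congr fun α _ => ?_)
      have h3 := Q2_RkA_iff e hal α d
      rw [← hE] at h3
      exact h3
    rw [h2] at h1
    exact h1
  · have h2 := map_dvd E.symm hm
    rw [map_pow, map_ofNat] at h2
    exact h2
  · rintro i p hp ⟨h2, h3⟩
    refine hu i (E p) ((MulEquiv.prime_iff E.toMulEquiv).2 hp) ⟨?_, ?_⟩
    · have h4 := map_dvd E h2
      rw [map_pow, E.apply_symm_apply] at h4
      exact h4
    · have h4 := map_dvd E h3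
      rw [map_pow, E.apply_symm_apply] at h4
      exact h4
  · refine ⟨fun α hα => ?_, fun α hα α' hα' hne => ⟨?_, ?_⟩⟩
    · rintro ⟨y, hy⟩
      refine hsep.1 (E α) (hmem α hα) ⟨y, ?_⟩
      rw [hy, hal, hEe]
    · rintro ⟨y, hy⟩
      refine (hsep.2 (E α) (hmem α hα) (E α') (hmem α' hα') fun h => hne (E.injective h)).1 ⟨y, ?_⟩
      rw [hEe, hEe, ← hal, ← hal]
      exact hy
    · rintro ⟨y, hy⟩
      refine (hsep.2 (E α) (hmem α hα) (E α') (hmem α' hα') fun h => hne (E.injective h)).2 ⟨y, ?_⟩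
      rw [hEe, hEe, ← map_mul, ← hal]
      exact hy

end Pool.Agent.Lib.MP_1a91b9_ntDT
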