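import Pool.Agent.Lib.MP_1a91b9_ntDT.Q2
import Pool.Agent.Lib.MP_1a91b9_ntDF.L3

/-!
# MP_1a91b9_nt (the discriminant form, sets of curves): the law for the tuples, `p = 3`
-/

set_option autoImplicit false

namespace Pool.Agent.Lib.MP_1a91b9_ntDT

open NumberField WeierstrassCurve
open Pool.Agent.Lib.MP_1a91b9_ntDF (Pf cK tw pw TowM)
open Pool.Agent.Lib.MP_1a91b9_ntJ (TowP exists_e6 exists_cube_mul)
open Pool.Agent.Lib.MP_1a91b9_ntZ (bn AtF CB cb_three)
open Pool.Agent.Lib.MP_1a91b9_ntMC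

private theorem q3_chp {K : Type} [Field K] [NumberField K] {L : Type} [Field L] [Algebra K L] {r : ℕ}
    (χ : Fin r → ZMod 3) (e : Fin r → 𝓞 K) :
    chp χ (fun i => algebraMap K L ((e i : 𝓞 K) : K)) = algebraMap K L ((chp χ e : 𝓞 K) : K) := by
  rw [show (algebraMap K L ((chp χ e : 𝓞 K) : K)) =
      ((algebraMap K L : K →* L).comp (algebraMap (𝓞 K) K : 𝓞 K →* K)) (chp χ e) from rfl,
      ← chp_map]
  rfl

private theorem q3_chpK {K : Type} [Field K] [NumberField K] {r : ℕ}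
    (χ : Fin r → ZMod 3) (e : Fin r → 𝓞 K) :
    pw (cK K e) χ = ((chp χ e : 𝓞 K) : K) := by
  rw [show ((chp χ e : 𝓞 K) : K) = (algebraMap (𝓞 K) K : 𝓞 K →* K) (chp χ e) from rfl, ← chp_map]
  rfl

/-- The intermediate fields are generated over `K` by cube roots. -/
private theorem q3_gen {K : Type} [Field K] [NumberField K] {F : Type} [Field F] [NumberField F]
    [Algebra K F] (hF : IntermediateField.adjoin K {x : F | ∃ c : K, x ^ 3 = algebraMap K F c} = ⊤)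
    {r : ℕ} (e : Fin r → K) (F' : Type) [Field F'] [NumberField F'] [Algebra K F'] [Algebra F F']
    [IsScalarTower K F F']
    (h : IntermediateField.adjoin F {y : F' | ∃ χ : Fin r → ZMod 3, y ^ 3 =
      algebraMap F F' (chp χ fun i => algebraMap K F (e i))} = ⊤) :
    IntermediateField.adjoin K {x : F' | ∃ c : K, x ^ 3 = algebraMap K F' c} = ⊤ := by
  obtain ⟨A, hA⟩ : ∃ A : IntermediateField K F', A =
      IntermediateField.adjoin K {x : F' | ∃ c : K, x ^ 3 = algebraMap K F' c} := ⟨_, rfl⟩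
  rw [← hA, eq_top_iff]
  have h1 : ∀ z : F, algebraMap F F' z ∈ A := by
    intro z
    have hz : z ∈ IntermediateField.adjoin K {x : F | ∃ c : K, x ^ 3 = algebraMap K F c} := by
      rw [hF]
      trivial
    refine IntermediateField.adjoin_induction (F := K) (p := fun z _ => algebraMap F F' z ∈ A)
      ?_ ?_ ?_ ?_ ?_ hz
    · rintro x ⟨c, hc⟩
      rw [hA]
      refine IntermediateField.subset_adjoin K _ ⟨c, ?_⟩
      rw [← map_pow, hc, ← IsScalarTower.algebraMap_apply]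
    · intro c
      rw [← IsScalarTower.algebraMap_apply K F F']
      exact A.algebraMap_mem c
    · intro x y _ _ hx hy
      rw [map_add]
      exact A.add_mem hx hy
    · intro x _ hx
      rw [map_inv₀]
      exact A.inv_mem hx
    · intro x y _ _ hx hy
      rw [map_mul]
      exact A.mul_mem hx hy
  intro z _
  have hz : z ∈ IntermediateField.adjoin F {y : F' | ∃ χ : Fin r → ZMod 3, y ^ 3 =
      algebraMap F F' (chp χ fun i => algebraMap K F (e i))} := by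
    rw [h]
    trivial
  refine IntermediateField.adjoin_induction (F := F) (p := fun z _ => z ∈ A)
    ?_ ?_ ?_ ?_ ?_ hz
  · rintro y ⟨χ, hy⟩
    rw [hA]
    refine IntermediateField.subset_adjoin K _ ⟨chp χ e, ?_⟩
    rw [hy, IsScalarTower.algebraMap_apply K F F']
    congr 1
    exact chp_map (algebraMap K F : K →* F) χ e
  · exact h1
  · intro x y _ _ hx hy
    exact A.add_mem hx hy
  · intro x _ hx
    exact A.inv_mem hx
  · intro x y _ _ hx hy
    exact A.mul_mem hx hy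

/-- The towers property of the tuple. -/
private theorem q3_tow {K : Type} [Field K] [NumberField K] (hK : Module.finrank ℚ K = 2)
    (h3 : ∃ s : K, s ^ 2 = -3) {a : K} (F : Type) [Field F] [NumberField F] [Algebra K F]
    (hF : IntermediateField.adjoin K {x : F | ∃ c : K, x ^ 3 = algebraMap K F c} = ⊤) {r : ℕ}
    {α t₀ : 𝓞 K} (hα : α ≠ 0) (ht₀ : t₀ ≠ 0) (hαt : (α : K) = a * (t₀ : K) ^ 3)
    {e : Fin r → 𝓞 K} (he : ∀ i, e i ≠ 0) (hR : RkA F α e)
    (hex : ∀ χ : Fin r → ZMod 3, χ ≠ 0 →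
        ¬ ∃ c : F, c ^ 3 = algebraMap K F ((∏ k, e k ^ (χ k).val : 𝓞 K) : K) * 1) :
    TowM (⟨0, 0, a, 0, 0⟩ : WeierstrassCurve K) F (cK K e) := by
  obtain ⟨z, hz⟩ : ∃ z : K, z ^ 2 + z + 1 = 0 := by
    obtain ⟨s, hs⟩ := h3
    refine ⟨(-1 + s) / 2, ?_⟩
    field_simp
    linear_combination hs
  have hw : IsPrimitiveRoot (algebraMap K F z) 3 := by
    have hz1 : z ≠ 1 := by
      rintro rfl
      have h3 : (3 : K) ≠ 0 := by norm_num
      apply h3
      linear_combination hz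
    have hz3 : z ^ 3 = 1 := by linear_combination (z - 1) * hz
    have hp : IsPrimitiveRoot z 3 := by
      rw [← orderOf_eq_prime hz3 hz1]
      exact IsPrimitiveRoot.orderOf z
    exact hp.map_of_injective (algebraMap K F).injective
  intro N _ _ _ x hx hgen F' _ _ _ _ _ _ _ χ hχ
  have hM : MCx (fun i => algebraMap K F ((e i : 𝓞 K) : K)) x := ⟨hx, hgen⟩
  have heK : ∀ i, ((e i : 𝓞 K) : K) ≠ 0 := fun i => by exact_mod_cast he i
  have heF : ∀ i, algebraMap K F ((e i : 𝓞 K) : K) ≠ 0 := fun i => (map_ne_zero _).2 (heK i)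
  have hind : ∀ χ : Fin r → ZMod 3, χ ≠ 0 →
      ¬ ∃ c : F, c ^ 3 = chp χ (fun i => algebraMap K F ((e i : 𝓞 K) : K)) := by
    rintro χ hχ ⟨c, hc⟩
    refine hex χ hχ ⟨c, ?_⟩
    rw [hc, q3_chp, mul_one]
    rfl
  have hF' := q3_gen hF (fun i => ((e i : 𝓞 K) : K)) F' (hM.inter hw heF hind F')
  rw [q3_chpK] at hχ ⊢
  obtain ⟨t1, t2⟩ := towP_mid hK h3 hα ht₀ hαt he hR hM F' hF' hχ
  have e1 : ∀ y : K, tw 3 (⟨0, 0, a, 0, 0⟩ : WeierstrassCurve K) F' y =
      ⟨0, 0, algebraMap K F' (a * y), 0, 0⟩ := by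
    intro y
    refine WeierstrassCurve.ext rfl ?_ ?_ ?_ rfl
    · show algebraMap K F' (0 * y ^ (2 / 3)) = 0
      rw [zero_mul, map_zero]
    · show algebraMap K F' (a * y ^ (3 / 3)) = algebraMap K F' (a * y)
      rw [Nat.div_self three_pos, pow_one]
    · show algebraMap K F' (0 * y ^ (4 / 3)) = 0
      rw [zero_mul, map_zero]
  rw [e1, e1]
  exact ⟨t1, t2⟩

/-- The twists over `K`. -/
private theorem q3_tw {K : Type} [Field K] (a δ : K) :
    tw 3 (⟨0, 0, a, 0, 0⟩ : WeierstrassCurve K) K δ = ⟨0, 0, a * δ, 0, 0⟩ := by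
  refine WeierstrassCurve.ext rfl ?_ ?_ ?_ rfl
  · show algebraMap K K (0 * δ ^ (2 / 3)) = 0
    rw [zero_mul, map_zero]
  · show algebraMap K K (a * δ ^ (3 / 3)) = a * δ
    rw [Nat.div_self three_pos, pow_one]
    rfl
  · show algebraMap K K (0 * δ ^ (4 / 3)) = 0
    rw [zero_mul, map_zero]

private theorem q3_one {α : Type} (a : α) (P : α → Prop) (i : DecidablePred P) (h : P a) :
    1 ≤ (@Finset.filter α P i {a}).card := by
  rw [Finset.filter_singleton, if_pos h, Finset.card_singleton]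

private theorem q3_one' {α : Type} (a : α) (P : α → Prop) (i : DecidablePred P)
    (h : 1 ≤ (@Finset.filter α P i {a}).card) : P a := by
  by_contra hn
  rw [Finset.filter_singleton, if_neg hn, Finset.card_empty] at h
  omega

private theorem q3_dec {α : Type} (S : Finset α) (P : α → Prop) (i j : DecidablePred P) {t : ℕ}
    (h : t ≤ (@Finset.filter α P i S).card) : t ≤ (@Finset.filter α P j S).card := by
  rwa [Subsingleton.elim j i]

open Classical in
private theorem q3_s1 {R β : Type} [CommRing R] {r t : ℕ} (δ : β) (P : β → (Fin r → R) → Prop)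
    (d : Fin r → R) (h : AtF {(fun _ => 1 : Fin r → R)} t fun δ' => P δ fun i => δ' i * d i) :
    t ≤ (({δ} : Finset β).filter fun δ => P δ d).card := by
  unfold AtF at h
  rw [Finset.filter_singleton] at h ⊢
  simp only [one_mul] at h
  by_cases hP : P δ d
  · rw [if_pos hP] at h ⊢
    rwa [Finset.card_singleton] at h ⊢
  · rw [if_neg hP] at h ⊢
    rwa [Finset.card_empty] at h ⊢

open Classical in
/-- From the rank to all the properties, for a finite set of curves. -/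
private theorem q3_all {K : Type} [Field K] [NumberField K] (hK : Module.finrank ℚ K = 2)
    (h3 : ∃ s : K, s ^ 2 = -3) (f : Pool.Agent.Lib.MP_1a91b9_ntT.K ≃+* K) {a : K} (ha : a ≠ 0)
    (F : Type) [Field F] [NumberField F] [Algebra K F]
    (hF : IntermediateField.adjoin K {x : F | ∃ c : K, x ^ 3 = algebraMap K F c} = ⊤) {r n : ℕ}
    {m : 𝓞 K} {u : Fin r → 𝓞 K} (hm : m ∣ 3 ^ n)
    (hu : ∀ i p, Prime p → ¬ (p ^ 3 ∣ m ∧ p ^ 3 ∣ u i)) (S : Finset K) (hS : ∀ δ ∈ S, δ ≠ 0)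
    (α t₀ : K → 𝓞 K) (hα : ∀ δ ∈ S, α δ ≠ 0) (ht₀ : ∀ δ ∈ S, t₀ δ ≠ 0)
    (hαt : ∀ δ ∈ S, (α δ : K) = a * δ * (t₀ δ : K) ^ 3) (t : ℕ) (c : ℝ)
    (h : CovG3 (𝓞 K) r m u (fun d => t ≤ (S.filter fun δ => RkA F (α δ) d).card) c) :
    CovG3 (𝓞 K) r m u (fun d => t ≤ (S.filter fun δ =>
      Pool.Agent.Lib.MP_1a91b9_ntMC.Fin.PropM (tw 3 (⟨0, 0, a, 0, 0⟩ : WeierstrassCurve K) K δ) F (cK K d) ∧
          TowM (tw 3 (⟨0, 0, a, 0, 0⟩ : WeierstrassCurve K) K δ) F (cK K d)).card) c := by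
  obtain ⟨s, hs⟩ := h3
  have hs' : s ^ 2 = ((-3 : ℤ) : K) := by
    rw [hs]
    push_cast
    rfl
  have hfu : Finite (𝓞 K)ˣ := Pool.Agent.Lib.MP_1a91b9_ntW.J.finite_units hK
    (Pool.Agent.Lib.MP_1a91b9_ntW.J.no_real hs' (by norm_num))
  have hpir : IsPrincipalIdealRing (𝓞 K) := pid3 f
  have hsm := sm3_gen covPos3M f hm hu
  have hB : ∀ δ ∈ S, ∃ B : Finset F, (∀ β ∈ B, β ≠ 0) ∧ ∀ α t₀ : 𝓞 K, α ≠ 0 → t₀ ≠ 0 →
      (α : K) = a * δ * (t₀ : K) ^ 3 →
      ∀ e : Fin r → 𝓞 K, (∀ i, e i ≠ 0) → RkA F α e →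
      (∀ β ∈ B, ∀ χ : Fin r → ZMod 3, χ ≠ 0 →
        ¬ ∃ c : F, c ^ 3 = algebraMap K F ((∏ k, e k ^ (χ k).val : 𝓞 K) : K) * β) →
      PropM3 (a * δ) F (fun i => ((e i : 𝓞 K) : K)) := fun δ hδ =>
    propM3_of hK ⟨s, hs⟩ (mul_ne_zero ha (hS δ hδ)) F hF r
  choose! B hB0 hB using hB
  have key := dstabM (K := K) (zeta_of_sq hs) (S := {fun _ => 1}) (r := r) (m := m) (u := u)
    (B := insert 1 (S.biUnion B)) (t := 1) (c := c)
    (P := fun d => t ≤ (S.filter fun δ => RkA F (α δ) d).card)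
    (Q := fun d => t ≤ (S.filter fun δ =>
      Pool.Agent.Lib.MP_1a91b9_ntMC.Fin.PropM (tw 3 (⟨0, 0, a, 0, 0⟩ : WeierstrassCurve K) K δ) F (cK K d) ∧
          TowM (tw 3 (⟨0, 0, a, 0, 0⟩ : WeierstrassCurve K) K δ) F (cK K d)).card)
    (fun δ hδ i => by
      rw [Finset.mem_singleton] at hδ
      rw [hδ]
      exact one_ne_zero) hsm
    (fun β hβ => by
      rcases Finset.mem_insert.1 hβ with rfl | hβ
      · exact one_ne_zero
      · obtain ⟨δ, hδ, hβ⟩ := Finset.mem_biUnion.1 hβ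
        exact hB0 δ hδ β hβ)
    (fun e he hP hβ => by
      refine hP.trans (Finset.card_le_card fun δ hδ => ?_)
      rw [Finset.mem_filter] at hδ ⊢
      obtain ⟨hδ, hR⟩ := hδ
      refine ⟨hδ, ?_⟩
      rw [q3_tw]
      exact ⟨Pool.Agent.Lib.MP_1a91b9_ntMC.Fin.propM_of3 hK ⟨s, hs⟩ (a * δ) F
        (hB δ hδ (α δ) (t₀ δ) (hα δ hδ) (ht₀ δ hδ) (hαt δ hδ) e he hR fun β h =>
          hβ β (Finset.mem_insert_of_mem (Finset.mem_biUnion.2 ⟨δ, hδ, h⟩))),
        q3_tow hK ⟨s, hs⟩ F hF (hα δ hδ) (ht₀ δ hδ) (hαt δ hδ) he hR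
          (hβ 1 (Finset.mem_insert_self _ _))⟩) ?_
  · have e1 : ∀ d : Fin r → 𝓞 K, (fun i => (fun _ => 1 : Fin r → 𝓞 K) i * d i) = d := by
      intro d
      funext i
      rw [one_mul]
    refine key.mono (fun X => lc3_finite r X) fun d _ hd => ?_
    have h1 := q3_one' _ _ _ hd
    simp only [e1] at h1
    exact h1
  · have e1 : ∀ d : Fin r → 𝓞 K, (fun i => (fun _ => 1 : Fin r → 𝓞 K) i * d i) = d := by
      intro d
      funext i
      rw [one_mul]
    refine h.mono (fun X => lc3_finite r X) fun d _ hd => ?_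
    refine q3_one _ _ _ ?_
    simp only [e1]
    exact hd

open Classical in
/-- **The law for the tuples and sets of curves**, `p = 3`. (`set_cov3` over `T`; for a finite `S` in `T` with one
element the law of `L3`, otherwise `kbt` for the `α = a t³` of the `a = E.a₃ δ`, `δ` in `S`, and `dstabM` of `MC/A5`
for the one tuple of multipliers `1`, `P d = (t ≤ number of the δ with RkA F (α δ) d)`, `Q d = (t ≤ number of the δ
with PropM .. ∧ TowM ..)` and the union of the exceptional classes of `propM3_of` for the curves, and `1`.) -/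
theorem l3T (K : Type) [Field K] [NumberField K] (hK : Module.finrank ℚ K = 2)
    (h3 : ∃ s : K, s ^ 2 = -3) (E : WeierstrassCurve K)
    (hE : E.a₁ = 0 ∧ E.a₂ = 0 ∧ E.a₄ = 0 ∧ E.a₆ = 0) (hΔ : E.Δ ≠ 0)
    (F : Type) [Field F] [NumberField F] [Algebra K F]
    (hF : IntermediateField.adjoin K {x : F | ∃ c : K, x ^ 3 = algebraMap K F c} = ⊤) (r : ℕ)
    (T : Set K) (h0 : 0 ∉ T)
    (hT : ∀ δ ∈ T, ∀ δ' ∈ T, δ ≠ δ' → ∀ x : F, x ^ 3 ≠ algebraMap K F (E.a₃ * δ) ∧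
      x ^ 3 * algebraMap K F δ' ≠ algebraMap K F δ ∧ x ^ 3 ≠ algebraMap K F (E.a₃ ^ 2 * δ * δ'))
    (n : ℕ) (u : Fin r → 𝓞 K)
    (hu : ∀ i q, Prime q → ¬ (q ^ 3 ∣ ((3 : ℕ) : 𝓞 K) ^ n ∧ q ^ 3 ∣ u i)) (t : ℕ) (v : ℝ)
    (hv : v = if T.Infinite then 1 else ∑ j ∈ Finset.Icc t T.ncard, (T.ncard.choose j : ℝ) *
      ((∏' i : ℕ, (1 + 1 / (3 : ℝ) ^ (i + 1))⁻¹) ^ ((3 ^ r - 1) * Module.finrank K F)) ^ j *
        (1 - (∏' i : ℕ, (1 + 1 / (3 : ℝ) ^ (i + 1))⁻¹) ^ ((3 ^ r - 1) * Module.finrank K F)) ^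
          (T.ncard - j)) (ε : ℝ) (hε : 0 < ε) :
    ∀ᶠ X : ℝ in Filter.atTop, v - ε ≤
      (Nat.card {d : Fin r → 𝓞 K //
        (∀ i, Pf 3 (d i) ∧ ((3 : ℕ) : 𝓞 K) ^ n ∣ d i - u i) ∧
        (∃ A, A ≠ 0 ∧ |Algebra.norm ℤ A| ≤ X ∧ ∀ i, d i ∣ A ^ (3 - 1)) ∧
        t ≤ {δ ∈ T | Pool.Agent.Lib.MP_1a91b9_ntMC.Fin.PropM (tw 3 E K δ) F (cK K d) ∧
          TowM (tw 3 E K δ) F (cK K d)}.encard} : ℝ) /
        (Nat.card {d : Fin r → 𝓞 K // (∀ i, Pf 3 (d i) ∧ ((3 : ℕ) : 𝓞 K) ^ n ∣ d i - u i) ∧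
          ∃ A, A ≠ 0 ∧ |Algebra.norm ℤ A| ≤ X ∧ ∀ i, d i ∣ A ^ (3 - 1)} : ℝ) := by
  obtain ⟨h1, h2, h4, h6⟩ := hE
  have ha : E.a₃ ≠ 0 := by
    intro h
    apply hΔ
    unfold WeierstrassCurve.Δ WeierstrassCurve.b₂ WeierstrassCurve.b₄ WeierstrassCurve.b₆
      WeierstrassCurve.b₈
    rw [h1, h2, h4, h6, h]
    ring
  have hE : E = ⟨0, 0, E.a₃, 0, 0⟩ := WeierstrassCurve.ext h1 h2 rfl h4 h6
  obtain ⟨a, haE⟩ : ∃ a, a = E.a₃ := ⟨_, rfl⟩
  rw [← haE] at ha hE hT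
  subst hE
  obtain ⟨s, hs⟩ := h3
  obtain ⟨e⟩ := exists_e6 hK hs
  obtain ⟨e'⟩ := Pool.Agent.Lib.MP_1a91b9_ntN.exists_iso36
  obtain ⟨f, -⟩ : ∃ f : Pool.Agent.Lib.MP_1a91b9_ntT.K ≃+* K, True :=
    ⟨(e' : Pool.Agent.Lib.MP_1a91b9_ntT.K ≃+* _).trans e, trivial⟩
  have hfu : Finite (𝓞 K)ˣ := by
    have hs' : s ^ 2 = ((-3 : ℤ) : K) := by
      rw [hs]
      push_cast
      rfl
    exact Pool.Agent.Lib.MP_1a91b9_ntW.J.finite_units hK
      (Pool.Agent.Lib.MP_1a91b9_ntW.J.no_real hs' (by norm_num))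
  have H : KBT K := kbt_equiv f kbt_main
  have hu' : ∀ i p, Prime p → ¬ (p ^ 3 ∣ (3 : 𝓞 K) ^ n ∧ p ^ 3 ∣ u i) := by
    intro i q hq hh
    refine hu i q hq ?_
    rwa [Nat.cast_ofNat]
  obtain ⟨c, hc⟩ : ∃ c : ℝ, c = ∏' i : ℕ, (1 + 1 / (3 : ℝ) ^ (i + 1))⁻¹ := ⟨_, rfl⟩
  have hcb : CB (c ^ ((3 ^ r - 1) * Module.finrank K F)) := by
    rw [hc]
    exact cb_three.pow _
  rw [← hc] at hv
  have hδ0 : ∀ δ ∈ T, δ ≠ 0 := fun δ hδ h => h0 (h ▸ hδ)
  have hex : ∀ δ ∈ T, ∃ α t₀ : 𝓞 K, α ≠ 0 ∧ t₀ ≠ 0 ∧ (α : K) = a * δ * (t₀ : K) ^ 3 :=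
    fun δ hδ => exists_cube_mul (mul_ne_zero ha (hδ0 δ hδ))
  choose! α t₀ hα ht₀ hαt using hex
  have ht₀F : ∀ δ ∈ T, algebraMap K F (t₀ δ : K) ≠ 0 := fun δ hδ =>
    (map_ne_zero _).2 (by exact_mod_cast ht₀ δ hδ)
  have key : CovG3 (𝓞 K) r (3 ^ n) u (fun d => (t : ℕ∞) ≤ {δ ∈ T |
      Pool.Agent.Lib.MP_1a91b9_ntMC.Fin.PropM (tw 3 (⟨0, 0, a, 0, 0⟩ : WeierstrassCurve K) K δ) F (cK K d) ∧
          TowM (tw 3 (⟨0, 0, a, 0, 0⟩ : WeierstrassCurve K) K δ) F (cK K d)}.encard) v := by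
    refine set_cov3 (fun X => lc3_finite r X) (Q := fun (δ : K) (d : Fin r → 𝓞 K) =>
      Pool.Agent.Lib.MP_1a91b9_ntMC.Fin.PropM (tw 3 (⟨0, 0, a, 0, 0⟩ : WeierstrassCurve K) K δ) F (cK K d) ∧
          TowM (tw 3 (⟨0, 0, a, 0, 0⟩ : WeierstrassCurve K) K δ) F (cK K d))
      hcb.1 hcb.2 (v := v) (hv.trans rfl) fun S hS => ?_
    have hST : ∀ δ ∈ S, δ ∈ T := fun δ hδ => hS (Finset.mem_coe.2 hδ)
    refine (q3_all hK ⟨s, hs⟩ f ha F hF dvd_rfl hu' S (fun δ hδ => hδ0 δ (hST δ hδ)) α t₀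
      (fun δ hδ => hα δ (hST δ hδ)) (fun δ hδ => ht₀ δ (hST δ hδ))
      (fun δ hδ => hαt δ (hST δ hδ)) t _ ?_).mono (fun X => lc3_finite r X) fun d _ hd =>
        q3_dec _ _ _ _ hd
    by_cases hsub : T.Subsingleton
    · rcases S.eq_empty_or_nonempty with rfl | ⟨δ, hδ⟩
      · have h5 := H F hF r n (3 ^ n) u dvd_rfl hu' ∅
          ⟨fun α h => absurd h (Finset.notMem_empty α), fun α h => absurd h (Finset.notMem_empty α)⟩ t
        rw [← hc] at h5
        exact h5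
      · have hSd : S = {δ} := by
          ext δ'
          rw [Finset.mem_singleton]
          constructor
          · intro h
            exact hsub (hST δ' h) (hST δ hδ)
          · rintro rfl
            exact hδ
        obtain ⟨α', hα'⟩ := (RingOfIntegers.mapRingEquiv f).surjective (α δ)
        have hα0 : α' ≠ 0 := by
          rintro rfl
          exact hα δ (hST δ hδ) (by rw [← hα', map_zero])
        have HM : KBM K (α δ) := by
          rw [← hα']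
          exact KBM.equiv f (kbM_main jm3 covPos3M hα0)
        have h5 := HM F hF r n (3 ^ n) u dvd_rfl hu' {fun _ => 1}
          (fun δ' hδ' i => by
            rw [Finset.mem_singleton] at hδ'
            rw [hδ']
            exact one_ne_zero)
          (by
            intro δ₁ h₁ δ₂ h₂ hne
            rw [Finset.mem_singleton] at h₁ h₂
            exact absurd (h₁.trans h₂.symm) hne) t
        rw [← hc, Finset.card_singleton] at h5
        rw [hSd, Finset.card_singleton]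
        exact h5.mono (fun X => lc3_finite r X) fun d _ hd =>
          q3_s1 δ (fun δ d => RkA F (α δ) d) d hd
    · have hne : ∀ δ ∈ T, ∃ δ' ∈ T, δ ≠ δ' := by
        intro δ hδ
        by_contra hcon
        push Not at hcon
        exact hsub fun x hx y hy => (hcon x hx).symm.trans (hcon y hy)
      have hinj : ∀ δ ∈ S, ∀ δ' ∈ S, α δ = α δ' → δ = δ' := by
        intro δ hδ δ' hδ' h
        by_contra hne'
        have h7 := hT δ (hST δ hδ) δ' (hST δ' hδ') hne'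
          (algebraMap K F (t₀ δ' : K) / algebraMap K F (t₀ δ : K))
        refine h7.2.1 ?_
        rw [div_pow, div_mul_eq_mul_div, div_eq_iff (pow_ne_zero 3 (ht₀F δ (hST δ hδ)))]
        have h8 : a * δ * (t₀ δ : K) ^ 3 = a * δ' * (t₀ δ' : K) ^ 3 := by
          rw [← hαt δ (hST δ hδ), ← hαt δ' (hST δ' hδ'), h]
        have h9 : δ * (t₀ δ : K) ^ 3 = δ' * (t₀ δ' : K) ^ 3 := by
          refine mul_left_cancel₀ ha ?_
          linear_combination h8
        have h10 := congrArg (algebraMap K F) h9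
        simp only [map_mul, map_pow] at h10
        linear_combination -h10
      have h5 := H F hF r n (3 ^ n) u dvd_rfl hu' (S.image α) ⟨?_, ?_⟩ t
      · have e1 : (S.image α).card = S.card := Finset.card_image_of_injOn hinj
        rw [← hc, e1] at h5
        refine h5.mono (fun X => lc3_finite r X) fun d _ hd => ?_
        unfold AtF at hd
        rw [Finset.filter_image] at hd
        exact hd.trans Finset.card_image_le
      · intro α₁ hα₁
        obtain ⟨δ, hδ, rfl⟩ := Finset.mem_image.1 hα₁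
        rintro ⟨y, hy⟩
        obtain ⟨δ', hδ', hne'⟩ := hne δ (hST δ hδ)
        refine (hT δ (hST δ hδ) δ' hδ' hne' (y / algebraMap K F (t₀ δ : K))).1 ?_
        rw [div_pow, div_eq_iff (pow_ne_zero 3 (ht₀F δ (hST δ hδ))), hy, hαt δ (hST δ hδ)]
        simp only [map_mul, map_pow]
      · intro α₁ hα₁ α₂ hα₂ hne₁
        obtain ⟨δ, hδ, rfl⟩ := Finset.mem_image.1 hα₁
        obtain ⟨δ', hδ', rfl⟩ := Finset.mem_image.1 hα₂
        have hne' : δ ≠ δ' := fun h => hne₁ (by rw [h])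
        refine ⟨?_, ?_⟩
        · rintro ⟨y, hy⟩
          refine (hT δ (hST δ hδ) δ' (hST δ' hδ') hne'
            (y * algebraMap K F (t₀ δ' : K) / algebraMap K F (t₀ δ : K))).2.1 ?_
          rw [hαt δ (hST δ hδ), hαt δ' (hST δ' hδ')] at hy
          simp only [map_mul, map_pow] at hy
          rw [div_pow, div_mul_eq_mul_div, div_eq_iff (pow_ne_zero 3 (ht₀F δ (hST δ hδ)))]
          have haF : algebraMap K F a ≠ 0 := (map_ne_zero _).2 ha
          refine mul_left_cancel₀ haF ?_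
          linear_combination hy
        · rintro ⟨y, hy⟩
          refine (hT δ (hST δ hδ) δ' (hST δ' hδ') hne'
            (y / (algebraMap K F (t₀ δ : K) * algebraMap K F (t₀ δ' : K)))).2.2 ?_
          rw [hαt δ (hST δ hδ), hαt δ' (hST δ' hδ')] at hy
          rw [div_pow, div_eq_iff (pow_ne_zero 3 (mul_ne_zero (ht₀F δ (hST δ hδ))
            (ht₀F δ' (hST δ' hδ')))), hy]
          simp only [map_mul, map_pow]
          ring
  have hpir : IsPrincipalIdealRing (𝓞 K) := pid3 f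
  have key2 := CovG3.form key ε hε
  filter_upwards [key2] with X hX
  refine hX.trans (le_of_eq ?_)
  have e2 : ((3 : ℕ) : 𝓞 K) = 3 := Nat.cast_ofNat
  rw [e2]
  rfl

end Pool.Agent.Lib.MP_1a91b9_ntDT
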